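import Pool.Agent.Helper46_MT.Grp
import Pool.Agent.MT100.StmtsH

/-! MT100, module HOD: final form. -/

set_option autoImplicit false
set_option linter.unusedSectionVars false

namespace Pool.Agent.Helper46_MT

open Matrix Module Pool.Agent.Helper78_MT Pool.Agent.Helper3_MT Pool.Agent.MT100

universe u

variable {n : Type*} [Fintype n] [DecidableEq n] {w : ℕ} {E : Matrix n n ℚ}
  {V : ℕ → Submodule ℂ (n → ℂ)}

/-- projectors onto the summands of a decomposition -/
theorem exists_proj (hi : iSupIndep V) (hs : ⨆ p, V p = ⊤) (ht : ∀ p, w < p → V p = ⊥) :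
    ∃ P : ℕ → (n → ℂ) →ₗ[ℂ] (n → ℂ), (∀ p x, P p x ∈ V p) ∧ (∀ p, ∀ x ∈ V p, P p x = x) ∧
      (∀ p q, p ≠ q → ∀ x ∈ V q, P p x = 0) ∧
        ∀ x, ∑ p ∈ Finset.range (w + 1), P p x = x := by
  classical
  have hI : DirectSum.IsInternal V :=
    DirectSum.isInternal_submodule_of_iSupIndep_of_iSup_eq_top hi hs
  let e : (DirectSum ℕ fun i => V i) ≃ₗ[ℂ] (n → ℂ) :=
    LinearEquiv.ofBijective (DirectSum.coeLinearMap V) hI
  have he : ∀ p, ∀ x (hx : x ∈ V p), e.symm x = DirectSum.lof ℂ ℕ (fun i => V i) p ⟨x, hx⟩ := by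
    intro p x hx
    rw [LinearEquiv.symm_apply_eq]
    exact (DirectSum.coeLinearMap_lof V p ⟨x, hx⟩).symm
  let P : ℕ → (n → ℂ) →ₗ[ℂ] (n → ℂ) := fun p =>
    (V p).subtype ∘ₗ (DirectSum.component ℂ ℕ (fun i => V i) p) ∘ₗ e.symm.toLinearMap
  have h1 : ∀ p, ∀ x ∈ V p, P p x = x := by
    intro p x hx
    change ((DirectSum.component ℂ ℕ (fun i => V i) p (e.symm x) : V p) : n → ℂ) = x
    rw [he p x hx, DirectSum.component.lof_self]
  have h2 : ∀ p q, p ≠ q → ∀ x ∈ V q, P p x = 0 := by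
    intro p q hpq x hx
    change ((DirectSum.component ℂ ℕ (fun i => V i) p (e.symm x) : V p) : n → ℂ) = 0
    rw [he q x hx, DirectSum.component.of, dif_neg (Ne.symm hpq)]
    rfl
  refine ⟨P, fun p x => SetLike.coe_mem _, h1, h2, fun x => ?_⟩
  have hx : x ∈ ⨆ p, V p := by rw [hs]; trivial
  induction hx using Submodule.iSup_induction' with
  | mem q x hx =>
    by_cases hq : q ≤ w
    · rw [Finset.sum_eq_single q]
      · exact h1 q x hx
      · intro p _ hne
        exact h2 p q hne x hx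
      · intro h
        exact absurd (Finset.mem_range.2 (by omega)) h
    · rw [ht q (by omega), Submodule.mem_bot] at hx
      rw [hx]
      simp
  | zero => simp
  | add x y _ _ hx hy => simp only [map_add, Finset.sum_add_distrib, hx, hy]

theorem ind (hs : ⨆ p, V p = ⊤) (ht : ∀ p, w < p → V p = ⊥) {A B : Matrix n n ℂ}
    (h : ∀ p ≤ w, ∀ x ∈ V p, A *ᵥ x = B *ᵥ x) : A = B := by
  apply Matrix.ext_of_mulVec_single
  intro j
  have key : ∀ x : n → ℂ, A *ᵥ x = B *ᵥ x := by
    intro x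
    have hx : x ∈ ⨆ p, V p := by rw [hs]; trivial
    induction hx using Submodule.iSup_induction' with
    | mem q x hx =>
      by_cases hq : q ≤ w
      · exact h q hq x hx
      · rw [ht q (by omega), Submodule.mem_bot] at hx
        rw [hx, mulVec_zero, mulVec_zero]
    | zero => rw [mulVec_zero, mulVec_zero]
    | add x y _ _ hx hy => rw [mulVec_add, mulVec_add, hx, hy]
  exact key _

theorem zero_of_dot {A : Matrix n n ℂ} (h : ∀ x y : n → ℂ, x ⬝ᵥ (A *ᵥ y) = 0) : A = 0 := by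
  ext i j
  have := h (Pi.single i 1) (Pi.single j 1)
  simpa using this

/-- the projectors of a polarised Hodge structure -/
theorem proj_of (hV : PolHodge w E V) : ∃ π : ℕ → Matrix n n ℂ, Proj w E π ∧
    (∀ p x, π p *ᵥ x ∈ V p) ∧ (∀ p, ∀ x ∈ V p, π p *ᵥ x = x) ∧
      ∀ p q, p ≠ q → ∀ x ∈ V q, π p *ᵥ x = 0 := by
  obtain ⟨P, h1, h2, h3, h4⟩ := exists_proj hV.indep hV.span hV.top
  have hP : ∀ p x, LinearMap.toMatrix' (P p) *ᵥ x = P p x := fun p x =>
    LinearMap.toMatrix'_mulVec _ _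
  refine ⟨fun p => LinearMap.toMatrix' (P p), ⟨?_, ?_, ?_, ?_, ?_⟩, ?_, ?_, ?_⟩
  · intro p _
    apply ind hV.span hV.top
    intro q _ x _
    rw [← mulVec_mulVec, hP, hP, h2 p _ (h1 p x)]
  · intro p _ q _ hpq
    apply ind hV.span hV.top
    intro _ _ x _
    rw [← mulVec_mulVec, hP, hP, h3 p q hpq _ (h1 q x), zero_mulVec]
  · apply ind hV.span hV.top
    intro _ _ x _
    rw [sum_mulVec, one_mulVec]
    simp_rw [hP]
    exact h4 x
  · intro p hp
    apply ind hV.span hV.top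
    intro q hq x hx
    have e1 : (LinearMap.toMatrix' (P p)).map (starRingEnd ℂ) *ᵥ x =
        star (LinearMap.toMatrix' (P p) *ᵥ (star x)) := by
      have h5 := conj_mulVec (LinearMap.toMatrix' (P p)) (star x)
      have e2 : (fun i => starRingEnd ℂ ((star x) i)) = x := by
        ext i
        simp
      rw [e2] at h5
      rw [← h5]
      rfl
    rw [e1, hP, hP]
    have hx' := hV.conj q hq x hx
    by_cases hpq : p = w - q
    · rw [hpq, h2 (w - q) _ hx', star_star]
      have e : w - (w - q) = q := by omega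
      rw [e, h2 q x hx]
    · rw [h3 p (w - q) hpq _ hx', star_zero, h3 (w - p) q (by omega) x hx]
  · intro p _ q _ hpq
    apply zero_of_dot
    intro x y
    have e1 : x ⬝ᵥ (((LinearMap.toMatrix' (P p))ᵀ * E.map (algebraMap ℚ ℂ) *
        LinearMap.toMatrix' (P q)) *ᵥ y) =
        (LinearMap.toMatrix' (P p) *ᵥ x) ⬝ᵥ (E.map (algebraMap ℚ ℂ) *ᵥ
          (LinearMap.toMatrix' (P q) *ᵥ y)) := by
      rw [← mulVec_mulVec, ← mulVec_mulVec, dotProduct_mulVec x, vecMul_transpose]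
    rw [e1, hP, hP]
    exact hV.orth p q hpq _ (h1 p x) _ (h1 q y)
  · intro p x
    rw [hP]
    exact h1 p x
  · intro p x hx
    rw [hP]
    exact h2 p x hx
  · intro p q hpq x hx
    rw [hP]
    exact h3 p q hpq x hx

/-- the form of a polarisation is nondegenerate -/
theorem det_ne (hV : PolHodge w E V) : E.det ≠ 0 := by
  obtain ⟨π, hπ, h1, h2, h3⟩ := proj_of hV
  intro h0
  obtain ⟨y, hy0, hy⟩ : ∃ y : n → ℂ, y ≠ 0 ∧ E.map (algebraMap ℚ ℂ) *ᵥ y = 0 := by
    apply Matrix.exists_mulVec_eq_zero_iff.2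
    have e : ((algebraMap ℚ ℂ).mapMatrix E).det = algebraMap ℚ ℂ E.det :=
      (RingHom.map_det _ _).symm
    rw [RingHom.mapMatrix_apply] at e
    rw [e, h0, map_zero]
  apply hy0
  have key : ∀ p ≤ w, π p *ᵥ y = 0 := by
    intro p hp
    by_contra hne
    have hx : star (π p *ᵥ y) ∈ V (w - p) := hV.conj p hp _ (h1 p y)
    have hx0 : star (π p *ᵥ y) ≠ 0 := star_ne_zero.2 hne
    obtain ⟨t, ht, h⟩ := hV.pos (w - p) (Nat.sub_le _ _) _ hx hx0
    have h4 : star (π p *ᵥ y) ⬝ᵥ (E.map (algebraMap ℚ ℂ) *ᵥ (π p *ᵥ y)) = 0 := by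
      have h5 : star (π p *ᵥ y) ⬝ᵥ (E.map (algebraMap ℚ ℂ) *ᵥ y) = 0 := by
        rw [hy, dotProduct_zero]
      have h6 : y = ∑ q ∈ Finset.range (w + 1), π q *ᵥ y := by
        rw [← sum_mulVec, hπ.sum, one_mulVec]
      have h7 : E.map (algebraMap ℚ ℂ) *ᵥ y =
          ∑ q ∈ Finset.range (w + 1), E.map (algebraMap ℚ ℂ) *ᵥ (π q *ᵥ y) := by
        conv_lhs => rw [h6]
        rw [mulVec_sum]
      rw [h7, dotProduct_sum, Finset.sum_eq_single p] at h5
      · exact h5
      · intro q hq hne'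
        have hq' := Nat.lt_succ_iff.1 (Finset.mem_range.1 hq)
        exact hV.orth (w - p) q (by omega) _ hx _ (h1 q y)
      · intro hp'
        exact absurd (Finset.mem_range.2 (by omega)) hp'
    rw [star_star, h4, mul_zero] at h
    have : t = 0 := by exact_mod_cast h.symm
    linarith
  have h6 : y = ∑ q ∈ Finset.range (w + 1), π q *ᵥ y := by
    rw [← sum_mulVec, hπ.sum, one_mulVec]
  rw [h6]
  apply Finset.sum_eq_zero
  intro p hp
  exact key p (Nat.lt_succ_iff.1 (Finset.mem_range.1 hp))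

theorem hz_torus {π : ℕ → Matrix n n ℂ} (hπ : Proj w E π) (h2 : ∀ p, ∀ x ∈ V p, π p *ᵥ x = x)
    {z : ℂ} (hz0 : z ≠ 0) : hz w π z ∈ hodgeTorus w V := by
  refine ⟨z, hz0, fun p hp x hx => ?_⟩
  unfold hz
  conv_lhs => rw [← h2 p x hx]
  rw [mulVec_mulVec, hπ.mul_sum (fun p => z ^ p * (starRingEnd ℂ z) ^ (w - p)) hp, smul_mulVec,
    h2 p x hx]
  rfl

/-- the Deligne torus consists of similitudes -/
theorem torus_sim (hV : PolHodge w E V) {T : Matrix n n ℂ} (hT : T ∈ hodgeTorus w V) :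
    T ∈ similitudes E ℂ := by
  obtain ⟨π, hπ, h1, h2, h3⟩ := proj_of hV
  obtain ⟨a, ha, hTa⟩ := hT
  have e : T = hz w π a := by
    apply ind hV.span hV.top
    intro p hp x hx
    rw [hTa p hp x hx]
    obtain ⟨b, hb, hb'⟩ := hz_torus hπ h2 ha
    unfold hz
    conv_rhs => rw [← h2 p x hx]
    rw [mulVec_mulVec, hπ.mul_sum (fun p => a ^ p * (starRingEnd ℂ a) ^ (w - p)) hp, smul_mulVec,
      h2 p x hx]
    rfl
  have hc : starRingEnd ℂ a ≠ 0 := (map_ne_zero _).2 ha
  rw [e]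
  refine ⟨?_, (a * starRingEnd ℂ a) ^ w, ?_⟩
  · rw [hz_eq ha, det_smul]
    exact (isUnit_iff_ne_zero.2 (pow_ne_zero _ (pow_ne_zero _ hc))).mul
      (hπ.Tc_unit (div_ne_zero ha hc))
  · unfold hz
    rw [hπ.form (fun p => a ^ p * (starRingEnd ℂ a) ^ (w - p))
      (fun p => a ^ p * (starRingEnd ℂ a) ^ (w - p))]
    conv_rhs => rw [hπ.form_one]
    rw [Finset.smul_sum]
    apply Finset.sum_congr rfl
    intro p hp
    have hp' := Nat.lt_succ_iff.1 (Finset.mem_range.1 hp)
    congr 1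
    have e1 : w - (w - p) = p := by omega
    rw [e1, mul_pow]
    calc a ^ p * starRingEnd ℂ a ^ (w - p) * (a ^ (w - p) * starRingEnd ℂ a ^ p)
        = (a ^ p * a ^ (w - p)) * (starRingEnd ℂ a ^ (w - p) * starRingEnd ℂ a ^ p) := by ring
      _ = _ := by rw [← pow_add, ← pow_add, Nat.add_sub_cancel' hp', Nat.sub_add_cancel hp']

theorem mt_sub (hV : PolHodge w E V) (hE0 : E ≠ 0) (K : Type*) [Field K] [CharZero K] :
    mtGroup w V K ⊆ similitudes E K := by
  intro M hM
  rw [← zeros_sim hE0]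
  apply hM
  · rw [IsAlgSubgroup, zeros_sim hE0]
    refine ⟨⟨by rw [det_one]; exact isUnit_one, 1, by simp⟩, fun X hX Y hY => sim_mul hX hY,
      fun X hX => sim_inv hE0 hX⟩
  · intro T hT
    rw [zeros_sim hE0]
    exact torus_sim hV hT

/-- **HOD** -/
theorem hod : HodStmt.{u} := by
  intro n _ _ w E V om hw hV hVw hom hq K _ _
  have hE := det_ne hV
  have hE0 : E ≠ 0 := by
    rintro rfl
    have hn : Nonempty n := by
      by_contra hn
      apply hom
      ext i
      exact absurd ⟨i⟩ hn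
    rw [det_zero] at hE
    exact hE rfl
  apply Set.eq_of_subset_of_subset
  · exact mt_sub hV hE0 K
  · intro X hX I hG hI
    obtain ⟨π, hπ, h1, h2, h3⟩ := proj_of hV
    have hEs : Eᵀ = -E := by
      have := hV.symm
      rwa [Odd.neg_one_pow hw, neg_one_smul] at this
    have hL : Line w π om := by
      have hom' : om ∈ V w := by
        rw [hVw]
        exact Submodule.mem_span_singleton_self om
      refine ⟨hom, h2 w om hom', fun v => ?_⟩
      have h4 := h1 w v
      rw [hVw] at h4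
      obtain ⟨c, hc⟩ := Submodule.mem_span_singleton.1 h4
      exact ⟨c, hc.symm⟩
    exact hod_core hπ hw.pos hL hE hEs hq hG (fun z hz0 => hI _ (hz_torus hπ h2 hz0)) K hX

end Pool.Agent.Helper46_MT
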