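import Pool.Agent.Helper46_MT.Core

/-! MT100, module HOD: the Lie algebra of an algebraic group containing the Deligne torus. -/

set_option autoImplicit false
set_option linter.unusedSectionVars false

namespace Pool.Agent.Helper46_MT

open MvPolynomial Matrix Module Pool.Agent.Helper78_MT Pool.Agent.Helper3_MT

variable {n : Type*} [Fintype n] [DecidableEq n]

section aut

theorem map_dr_aut (τ : ℂ ≃+* ℂ) (X : Matrix n n ℂ) (p : MvPolynomial (n × n) ℂ) :
    MvPolynomial.map (τ : ℂ →+* ℂ) (dr X p) = dr (X.map τ) (MvPolynomial.map (τ : ℂ →+* ℂ) p) := by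
  induction p using MvPolynomial.induction_on with
  | C c => simp
  | add p q hp hq => rw [map_add, map_add, hp, hq, map_add, map_add]
  | mul_X p ij hp =>
    rw [Derivation.leibniz, map_add, map_mul, Derivation.leibniz]
    simp only [smul_eq_mul, map_mul, hp, MvPolynomial.map_X, dr_X, map_sum]
    congr 2
    apply Finset.sum_congr rfl
    intro k _
    rw [MvPolynomial.smul_eq_C_mul, MvPolynomial.smul_eq_C_mul, map_mul, MvPolynomial.map_C,
      MvPolynomial.map_X, Matrix.map_apply]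
    rfl

theorem map_symm_map (τ : ℂ ≃+* ℂ) (p : MvPolynomial (n × n) ℂ) :
    MvPolynomial.map (τ : ℂ →+* ℂ) (MvPolynomial.map (τ.symm : ℂ →+* ℂ) p) = p := by
  rw [MvPolynomial.map_map]
  have : (τ : ℂ →+* ℂ).comp (τ.symm : ℂ →+* ℂ) = RingHom.id ℂ := by
    ext x
    simp
  rw [this, MvPolynomial.map_id]

/-- the Lie algebra is stable under the automorphisms of the field -/
theorem lie_aut {I : Set (MvPolynomial (n × n) ℚ)} (τ : ℂ ≃+* ℂ) {X : Matrix n n ℂ}
    (hX : X ∈ lieOf (zeros I ℂ)) : X.map τ ∈ lieOf (zeros I ℂ) := by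
  rw [mem_lieOf] at hX ⊢
  intro p hp g hg
  obtain ⟨q, hq⟩ : ∃ q, q = MvPolynomial.map (τ.symm : ℂ →+* ℂ) p := ⟨_, rfl⟩
  have hpq : p = MvPolynomial.map (τ : ℂ →+* ℂ) q := by rw [hq, map_symm_map]
  have hq0 : ∀ g ∈ zeros I ℂ, pev g q = 0 := by
    intro g hg
    have h1 := pev_twist τ g q
    rw [← hpq, hp _ (zeros_aut τ hg)] at h1
    exact (map_eq_zero_iff τ τ.injective).1 h1.symm
  have h2 := hX q hq0 (g.map τ.symm) (zeros_aut τ.symm hg)
  have h3 := pev_twist τ (g.map τ.symm) (dr X q)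
  rw [map_symm, h2, map_zero, map_dr_aut, ← hpq] at h3
  exact h3

end aut

/-- the Lie algebra of the group, intersected with the symplectic Lie algebra -/
def Ul (I : Set (MvPolynomial (n × n) ℚ)) (E : Matrix n n ℚ) : Submodule ℂ (Matrix n n ℂ) where
  carrier := {X | X ∈ lieOf (zeros I ℂ) ∧
    Xᵀ * E.map (algebraMap ℚ ℂ) + E.map (algebraMap ℚ ℂ) * X = 0}
  zero_mem' := ⟨Submodule.zero_mem _, by simp⟩
  add_mem' := by
    rintro X Y ⟨h1, h2⟩ ⟨h3, h4⟩
    refine ⟨Submodule.add_mem _ h1 h3, ?_⟩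
    rw [transpose_add, add_mul, mul_add, add_add_add_comm, h2, h4, add_zero]
  smul_mem' := by
    rintro c X ⟨h1, h2⟩
    refine ⟨Submodule.smul_mem _ _ h1, ?_⟩
    rw [transpose_smul, smul_mul_assoc, mul_smul_comm, ← smul_add, h2, smul_zero]

theorem mem_Ul {I : Set (MvPolynomial (n × n) ℚ)} {E : Matrix n n ℚ} {X : Matrix n n ℂ} :
    X ∈ Ul I E ↔ X ∈ lieOf (zeros I ℂ) ∧
      Xᵀ * E.map (algebraMap ℚ ℂ) + E.map (algebraMap ℚ ℂ) * X = 0 := Iff.rfl

theorem rat_map (τ : ℂ ≃+* ℂ) (E : Matrix n n ℚ) :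
    (E.map (algebraMap ℚ ℂ)).map τ = E.map (algebraMap ℚ ℂ) := by
  ext i j
  simp

/-- the rational elements span -/
theorem Ul_descent (I : Set (MvPolynomial (n × n) ℚ)) (E : Matrix n n ℚ) {X : Matrix n n ℂ}
    (hX : X ∈ Ul I E) : X ∈ Submodule.span ℂ {Z : Matrix n n ℂ | ∃ Y : Matrix n n ℚ,
      Z = Y.map (algebraMap ℚ ℂ) ∧ Z ∈ Ul I E} := by
  classical
  let c₀ : Matrix n n ℂ →ₗ[ℂ] (n × n → ℂ) :=
    { toFun := fun T p => T p.1 p.2
      map_add' := fun _ _ => rfl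
      map_smul' := fun _ _ => rfl }
  let c : Matrix n n ℂ →ₗ[ℂ] (n × n →₀ ℂ) :=
    (Finsupp.linearEquivFunOnFinite ℂ ℂ (n × n)).symm.toLinearMap ∘ₗ c₀
  have hcc : ∀ p m, c p m = p m.1 m.2 := fun p m => rfl
  have hc : Function.Injective c := by
    intro a b hab
    ext i j
    exact congrArg (fun f : (n × n →₀ ℂ) => f (i, j)) hab
  have hdes := descent c hc (Ul I E) (by
    intro τ w hw
    refine ⟨w.map τ, ⟨lie_aut τ hw.1, ?_⟩, fun i => rfl⟩
    have h1 : (wᵀ * E.map (algebraMap ℚ ℂ) + E.map (algebraMap ℚ ℂ) * w).map (τ : ℂ →+* ℂ) =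
        (0 : Matrix n n ℂ).map (τ : ℂ →+* ℂ) :=
      congrArg (fun M : Matrix n n ℂ => M.map (τ : ℂ →+* ℂ)) hw.2
    have e1 : (0 : Matrix n n ℂ).map (τ : ℂ →+* ℂ) = 0 := Matrix.map_zero _ (map_zero τ)
    have e2 : ∀ A B : Matrix n n ℂ, (A + B).map (τ : ℂ →+* ℂ) = A.map τ + B.map τ := by
      intro A B
      ext i j
      simp
    have e3 : ∀ A B : Matrix n n ℂ, (A * B).map (τ : ℂ →+* ℂ) = A.map τ * B.map τ := fun A B =>
      Matrix.map_mul (f := (τ : ℂ →+* ℂ))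
    have e4 : ∀ A B : Matrix n n ℂ, (A * B).map τ = A.map τ * B.map τ := e3
    rw [e1, e2, e4, e4, rat_map] at h1
    exact h1)
  refine Submodule.span_mono ?_ (hdes X hX)
  rintro v ⟨hv, hvr⟩
  choose f hf using hvr
  have e1 : v = (Matrix.of (fun i j => f (i, j)) : Matrix n n ℚ).map (algebraMap ℚ ℂ) := by
    ext i j
    rw [Matrix.map_apply, Matrix.of_apply, hf, hcc]
  exact ⟨_, e1, hv⟩

section grp
variable {w : ℕ} {E : Matrix n n ℚ} {π : ℕ → Matrix n n ℂ} {I : Set (MvPolynomial (n × n) ℚ)}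

/-- the form in terms of the projectors -/
theorem Proj.form (h : Proj w E π) (a b : ℕ → ℂ) :
    (∑ p ∈ Finset.range (w + 1), a p • π p)ᵀ * E.map (algebraMap ℚ ℂ) *
      (∑ q ∈ Finset.range (w + 1), b q • π q) =
    ∑ p ∈ Finset.range (w + 1), (a p * b (w - p)) •
      ((π p)ᵀ * E.map (algebraMap ℚ ℂ) * π (w - p)) := by
  rw [transpose_sum, Finset.sum_mul, Finset.sum_mul]
  apply Finset.sum_congr rfl
  intro p hp
  have hp' := Nat.lt_succ_iff.1 (Finset.mem_range.1 hp)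
  rw [Finset.mul_sum, Finset.sum_eq_single (w - p)]
  · rw [transpose_smul, smul_mul_assoc, smul_mul_smul_comm]
  · intro q hq hne
    have hq' := Nat.lt_succ_iff.1 (Finset.mem_range.1 hq)
    rw [transpose_smul, smul_mul_assoc, smul_mul_smul_comm, h.pair p hp' q hq' (by omega),
      smul_zero]
  · intro hq
    exact absurd (Finset.mem_range.2 (by omega)) hq

theorem Proj.form_one (h : Proj w E π) : E.map (algebraMap ℚ ℂ) =
    ∑ p ∈ Finset.range (w + 1), ((π p)ᵀ * E.map (algebraMap ℚ ℂ) * π (w - p)) := by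
  have h1 := h.form (fun _ => 1) (fun _ => 1)
  simp only [one_smul, mul_one] at h1
  rw [h.sum, transpose_one, one_mul, mul_one] at h1
  exact h1

theorem Proj.T_sim (h : Proj w E π) (t : ℂ) :
    (Tc w π t)ᵀ * E.map (algebraMap ℚ ℂ) * Tc w π t = t ^ w • E.map (algebraMap ℚ ℂ) := by
  unfold Tc
  rw [h.form]
  conv_rhs => rw [h.form_one]
  rw [Finset.smul_sum]
  apply Finset.sum_congr rfl
  intro p hp
  have hp' := Nat.lt_succ_iff.1 (Finset.mem_range.1 hp)
  rw [← pow_add, Nat.add_sub_cancel' hp']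

/-- `sum (p - w/2) π_p` -/
noncomputable def Phi' (w : ℕ) (π : ℕ → Matrix n n ℂ) : Matrix n n ℂ :=
  Phi w π - ((w : ℂ) / 2) • 1

theorem Phi'_mem (h : Proj w E π) (hw : 1 ≤ w) (hG : IsAlgSubgroup I)
    (hI : ∀ z : ℂ, z ≠ 0 → hz w π z ∈ zeros I ℂ) : Phi' w π ∈ Ul I E := by
  refine ⟨Submodule.sub_mem _ (phi_mem h hw hG hI)
    (Submodule.smul_mem _ _ (one_mem_lie h hw hG hI)), ?_⟩
  have h1 := h.form (fun p => (p : ℂ)) (fun _ => 1)
  have h2 := h.form (fun _ => 1) (fun p => (p : ℂ))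
  simp only [one_smul, mul_one, one_mul] at h1 h2
  rw [h.sum] at h1 h2
  rw [mul_one] at h1
  rw [transpose_one, one_mul] at h2
  have h3 : (Phi w π)ᵀ * E.map (algebraMap ℚ ℂ) + E.map (algebraMap ℚ ℂ) * Phi w π =
      (w : ℂ) • E.map (algebraMap ℚ ℂ) := by
    unfold Phi
    rw [h1, h2, ← Finset.sum_add_distrib]
    conv_rhs => rw [h.form_one, Finset.smul_sum]
    apply Finset.sum_congr rfl
    intro p hp
    have hp' := Nat.lt_succ_iff.1 (Finset.mem_range.1 hp)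
    rw [← add_smul]
    congr 1
    rw [Nat.cast_sub hp']
    ring
  unfold Phi'
  rw [transpose_sub, transpose_smul, transpose_one, sub_mul, mul_sub, smul_mul_assoc,
    mul_smul_comm, one_mul, mul_one]
  have h4 : (Phi w π)ᵀ * E.map (algebraMap ℚ ℂ) - ((w : ℂ) / 2) • E.map (algebraMap ℚ ℂ) +
      (E.map (algebraMap ℚ ℂ) * Phi w π - ((w : ℂ) / 2) • E.map (algebraMap ℚ ℂ)) =
      ((Phi w π)ᵀ * E.map (algebraMap ℚ ℂ) + E.map (algebraMap ℚ ℂ) * Phi w π) -
      (w : ℂ) • E.map (algebraMap ℚ ℂ) := by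
    module
  rw [h4, h3, sub_self]

theorem Ul_conj (h : Proj w E π) (hw : 1 ≤ w) (hG : IsAlgSubgroup I)
    (hI : ∀ z : ℂ, z ≠ 0 → hz w π z ∈ zeros I ℂ) {t : ℂ} (ht : t ≠ 0) {X : Matrix n n ℂ}
    (hX : X ∈ Ul I E) : Tc w π t * X * Tc w π t⁻¹ ∈ Ul I E := by
  have h1 := h.Tc_inv ht
  have h1' : Tc w π t⁻¹ * Tc w π t = 1 := by rw [h.Tc_mul, inv_mul_cancel₀ ht, h.Tc_one]
  refine ⟨lieOf_conj h1' (fun a ha => hG.2.1 _ ha _ (T_mem h hw hG hI ht))
    (fun a ha => hG.2.1 _ ha _ (T_mem h hw hG hI (inv_ne_zero ht))) hX.1, ?_⟩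
  have h2 := h.T_sim t
  obtain ⟨T, hT⟩ : ∃ T, T = Tc w π t := ⟨_, rfl⟩
  obtain ⟨T', hT'⟩ : ∃ T', T' = Tc w π t⁻¹ := ⟨_, rfl⟩
  obtain ⟨F, hF⟩ : ∃ F, F = E.map (algebraMap ℚ ℂ) := ⟨_, rfl⟩
  have hX2 := hX.2
  rw [← hT, ← hT'] at h1 h1'
  rw [← hT, ← hF] at h2
  rw [← hF] at hX2
  rw [← hT, ← hT', ← hF]
  have h3 : Tᵀ * F = t ^ w • (F * T') := by
    calc Tᵀ * F = Tᵀ * F * (T * T') := by rw [h1, mul_one]
      _ = (Tᵀ * F * T) * T' := by simp only [mul_assoc]
      _ = _ := by rw [h2, smul_mul_assoc]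
  have h1t : T'ᵀ * Tᵀ = 1 := by rw [← transpose_mul, h1, transpose_one]
  have h4 : F * T = t ^ w • (T'ᵀ * F) := by
    calc F * T = (T'ᵀ * Tᵀ) * (F * T) := by rw [h1t, one_mul]
      _ = T'ᵀ * (Tᵀ * F * T) := by simp only [mul_assoc]
      _ = _ := by rw [h2, mul_smul_comm]
  have h5 : (T * X * T')ᵀ * F + F * (T * X * T') =
      t ^ w • (T'ᵀ * (Xᵀ * F + F * X) * T') := by
    have e1 : (T * X * T')ᵀ * F = T'ᵀ * Xᵀ * (Tᵀ * F) := by
      rw [transpose_mul, transpose_mul]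
      simp only [mul_assoc]
    have e2 : F * (T * X * T') = (F * T) * X * T' := by simp only [mul_assoc]
    rw [e1, e2, h3, h4, mul_add, add_mul, smul_add, mul_smul_comm, smul_mul_assoc, smul_mul_assoc]
    simp only [mul_assoc]
  rw [h5, hX2, mul_zero, zero_mul, smul_zero]

/-- the extreme component -/
theorem Ul_ext (h : Proj w E π) (hw : 1 ≤ w) (hG : IsAlgSubgroup I)
    (hI : ∀ z : ℂ, z ≠ 0 → hz w π z ∈ zeros I ℂ) {X : Matrix n n ℂ}
    (hX : X ∈ Ul I E) : π w * X * π 0 ∈ Ul I E := by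
  by_contra hnot
  obtain ⟨f, hf, hle⟩ := Submodule.exists_le_ker_of_notMem hnot
  have h1 : (∑ p ∈ Finset.range (w + 1), ∑ q ∈ Finset.range (w + 1),
      Polynomial.C (f (π p * X * π q)) * Polynomial.X ^ (p + (w - q)) : Polynomial ℂ) = 0 := by
    apply poly_zero_of_eval
    intro t ht
    have h2 : f (Tc w π t * X * Tc w π t⁻¹) = 0 := hle (Ul_conj h hw hG hI ht hX)
    unfold Tc at h2
    rw [Finset.sum_mul, Finset.sum_mul, map_sum] at h2
    have h3 := congrArg (fun x => t ^ w * x) h2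
    simp only [mul_zero] at h3
    rw [← h3, Finset.mul_sum, Polynomial.eval_finsetSum]
    apply Finset.sum_congr rfl
    intro p _
    rw [Finset.mul_sum, map_sum, Finset.mul_sum, Polynomial.eval_finsetSum]
    apply Finset.sum_congr rfl
    intro q hq
    have hq' := Nat.lt_succ_iff.1 (Finset.mem_range.1 hq)
    rw [Polynomial.eval_mul, Polynomial.eval_C, Polynomial.eval_pow, Polynomial.eval_X,
      smul_mul_assoc, smul_mul_smul_comm, map_smul, smul_eq_mul]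
    have h4 : t ^ w * (t⁻¹) ^ q = t ^ (w - q) := by
      rw [inv_pow, ← div_eq_mul_inv, div_eq_iff (pow_ne_zero _ ht), ← pow_add,
        Nat.sub_add_cancel hq']
    rw [pow_add, ← h4]
    ring
  have h2 := congrArg (fun P : Polynomial ℂ => P.coeff (w + w)) h1
  simp only [Polynomial.finsetSum_coeff, Polynomial.coeff_C_mul, Polynomial.coeff_X_pow,
    Polynomial.coeff_zero] at h2
  rw [Finset.sum_eq_single w, Finset.sum_eq_single 0] at h2
  · rw [if_pos (by omega), mul_one] at h2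
    exact hf h2
  · intro q _ hq
    rw [if_neg (by omega), mul_zero]
  · intro hq
    exact absurd (Finset.mem_range.2 (by omega)) hq
  · intro p hp hne
    have hp' := Nat.lt_succ_iff.1 (Finset.mem_range.1 hp)
    apply Finset.sum_eq_zero
    intro q _
    rw [if_neg (by omega), mul_zero]
  · intro hq
    exact absurd (Finset.mem_range.2 (by omega)) hq

end grp

end Pool.Agent.Helper46_MT
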