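import Pool.Agent.Helper3_MT.Main

/-! MT100, module HOD: curves in the algebraic groups containing the image of the Deligne torus. -/

set_option autoImplicit false
set_option linter.unusedSectionVars false

namespace Pool.Agent.Helper46_MT

open MvPolynomial Matrix Module Pool.Agent.Helper78_MT Pool.Agent.Helper3_MT

variable {n : Type*} [Fintype n] [DecidableEq n]

/-- a curve of matrices -/
noncomputable def pc (w : ℕ) (A : ℕ → Matrix n n ℂ) : Matrix n n (Polynomial ℂ) :=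
  fun i j => ∑ p ∈ Finset.range (w + 1), Polynomial.C (A p i j) * Polynomial.X ^ p

/-- the values of the curve -/
noncomputable def Tc (w : ℕ) (A : ℕ → Matrix n n ℂ) (t : ℂ) : Matrix n n ℂ :=
  ∑ p ∈ Finset.range (w + 1), t ^ p • A p

theorem pc_eval (w : ℕ) (A : ℕ → Matrix n n ℂ) (t : ℂ) :
    (pc w A).map (Polynomial.eval t) = Tc w A t := by
  ext i j
  simp only [pc, Tc, Matrix.map_apply, Polynomial.eval_finsetSum, Polynomial.eval_mul,
    Polynomial.eval_C, Polynomial.eval_pow, Polynomial.eval_X, Matrix.sum_apply, Matrix.smul_apply,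
    smul_eq_mul]
  exact Finset.sum_congr rfl fun p _ => mul_comm _ _

theorem pc_deriv (w : ℕ) (A : ℕ → Matrix n n ℂ) (i j : n) :
    Polynomial.X * Polynomial.derivative (pc w A i j) = pc w (fun p => (p : ℂ) • A p) i j := by
  simp only [pc, Polynomial.derivative_sum, Finset.mul_sum]
  apply Finset.sum_congr rfl
  intro p _
  rw [Polynomial.derivative_C_mul, Polynomial.derivative_X_pow, Matrix.smul_apply, smul_eq_mul,
    map_mul]
  rcases p with _ | p
  · simp
  · rw [Nat.add_sub_cancel]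
    ring

theorem pc_sum (w : ℕ) (A : ℕ → Matrix n n ℂ) (M : Matrix n n ℂ) (i j : n) :
    ∑ k, M k j • pc w A i k = pc w (fun p => A p * M) i j := by
  simp only [pc, Matrix.mul_apply, map_sum, Finset.sum_mul, Finset.smul_sum]
  rw [Finset.sum_comm]
  apply Finset.sum_congr rfl
  intro p _
  apply Finset.sum_congr rfl
  intro k _
  rw [Polynomial.smul_eq_C_mul, map_mul]
  ring

/-- The projectors of a Hodge structure of weight `w`, compatible with the form `E`. -/
structure Proj (w : ℕ) (E : Matrix n n ℚ) (π : ℕ → Matrix n n ℂ) : Prop where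
  idem : ∀ p ≤ w, π p * π p = π p
  orth : ∀ p ≤ w, ∀ q ≤ w, p ≠ q → π p * π q = 0
  sum : ∑ p ∈ Finset.range (w + 1), π p = 1
  conj : ∀ p ≤ w, (π p).map (starRingEnd ℂ) = π (w - p)
  pair : ∀ p ≤ w, ∀ q ≤ w, p + q ≠ w → (π p)ᵀ * E.map (algebraMap ℚ ℂ) * π q = 0

/-- the element of the Deligne torus -/
noncomputable def hz (w : ℕ) (π : ℕ → Matrix n n ℂ) (z : ℂ) : Matrix n n ℂ :=
  ∑ p ∈ Finset.range (w + 1), (z ^ p * (starRingEnd ℂ z) ^ (w - p)) • π p

section
variable {w : ℕ} {E : Matrix n n ℚ} {π : ℕ → Matrix n n ℂ}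

theorem Proj.mul_sum (h : Proj w E π) (a : ℕ → ℂ) {q : ℕ} (hq : q ≤ w) :
    (∑ p ∈ Finset.range (w + 1), a p • π p) * π q = a q • π q := by
  rw [Finset.sum_mul, Finset.sum_eq_single q]
  · rw [smul_mul_assoc, h.idem q hq]
  · intro p hp hne
    rw [smul_mul_assoc, h.orth p (Nat.lt_succ_iff.1 (Finset.mem_range.1 hp)) q hq hne, smul_zero]
  · intro hq'
    exact absurd (Finset.mem_range.2 (Nat.lt_succ_iff.2 hq)) hq'

theorem Proj.sum_mul (h : Proj w E π) (a : ℕ → ℂ) {q : ℕ} (hq : q ≤ w) :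
    π q * (∑ p ∈ Finset.range (w + 1), a p • π p) = a q • π q := by
  rw [Finset.mul_sum, Finset.sum_eq_single q]
  · rw [mul_smul_comm, h.idem q hq]
  · intro p hp hne
    rw [mul_smul_comm, h.orth q hq p (Nat.lt_succ_iff.1 (Finset.mem_range.1 hp)) (Ne.symm hne),
      smul_zero]
  · intro hq'
    exact absurd (Finset.mem_range.2 (Nat.lt_succ_iff.2 hq)) hq'

theorem Proj.sum_sum (h : Proj w E π) (a b : ℕ → ℂ) :
    (∑ p ∈ Finset.range (w + 1), a p • π p) * (∑ p ∈ Finset.range (w + 1), b p • π p) =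
      ∑ p ∈ Finset.range (w + 1), (a p * b p) • π p := by
  rw [Finset.mul_sum]
  apply Finset.sum_congr rfl
  intro p hp
  rw [mul_smul_comm, h.mul_sum a (Nat.lt_succ_iff.1 (Finset.mem_range.1 hp)), smul_smul, mul_comm]

theorem Proj.Tc_mul (h : Proj w E π) (s t : ℂ) : Tc w π s * Tc w π t = Tc w π (s * t) := by
  unfold Tc
  rw [h.sum_sum]
  simp_rw [mul_pow]

theorem Proj.Tc_one (h : Proj w E π) : Tc w π 1 = 1 := by
  unfold Tc
  simp_rw [one_pow, one_smul]
  exact h.sum

theorem Proj.Tc_inv (h : Proj w E π) {t : ℂ} (ht : t ≠ 0) : Tc w π t * Tc w π t⁻¹ = 1 := by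
  rw [h.Tc_mul, mul_inv_cancel₀ ht, h.Tc_one]

theorem Proj.Tc_unit (h : Proj w E π) {t : ℂ} (ht : t ≠ 0) : IsUnit (Tc w π t).det := by
  have h1 := congrArg det (h.Tc_inv ht)
  rw [det_mul, det_one] at h1
  exact IsUnit.of_mul_eq_one _ h1

/-- `h(z)` is a multiple of `T(z / conj z)` -/
theorem hz_eq {z : ℂ} (hz0 : z ≠ 0) : hz w π z =
    (starRingEnd ℂ z) ^ w • Tc w π (z / starRingEnd ℂ z) := by
  have hc : starRingEnd ℂ z ≠ 0 := (map_ne_zero _).2 hz0
  unfold hz Tc
  rw [Finset.smul_sum]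
  apply Finset.sum_congr rfl
  intro p hp
  have hp' := Nat.lt_succ_iff.1 (Finset.mem_range.1 hp)
  rw [smul_smul]
  congr 1
  rw [div_pow, mul_div_assoc', mul_comm ((starRingEnd ℂ z) ^ w), mul_div_assoc]
  congr 1
  rw [eq_div_iff (pow_ne_zero _ hc), ← pow_add, Nat.sub_add_cancel hp']

theorem hz_real (h : Proj w E π) {r : ℝ} : hz w π (r : ℂ) = ((r : ℂ) ^ w) • (1 : Matrix n n ℂ) := by
  unfold hz
  rw [← h.sum, Finset.smul_sum]
  apply Finset.sum_congr rfl
  intro p hp
  have hp' := Nat.lt_succ_iff.1 (Finset.mem_range.1 hp)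
  rw [Complex.conj_ofReal, ← pow_add, Nat.add_sub_cancel' hp']

end

section group
variable {w : ℕ} {E : Matrix n n ℚ} {π : ℕ → Matrix n n ℂ} {I : Set (MvPolynomial (n × n) ℚ)}

theorem pevC (M : Matrix n n ℂ) (p : MvPolynomial (n × n) ℚ) :
    pev M (MvPolynomial.map (algebraMap ℚ ℂ) p) = pev M p := pev_map M p

theorem scal_unit {c : ℂ} (hc : c ≠ 0) : IsUnit (c • (1 : Matrix n n ℂ)).det := by
  have h1 : (c • (1 : Matrix n n ℂ)) * (c⁻¹ • (1 : Matrix n n ℂ)) = 1 := by
    rw [smul_mul_smul_comm, mul_inv_cancel₀ hc, one_smul, one_mul]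
  have h2 := congrArg det h1
  rw [det_mul, det_one] at h2
  exact IsUnit.of_mul_eq_one _ h2

/-- the scalars are in the group -/
theorem scal_mem (h : Proj w E π) (hw : 1 ≤ w)
    (hI : ∀ z : ℂ, z ≠ 0 → hz w π z ∈ zeros I ℂ) {c : ℂ} (hc : c ≠ 0) :
    c • (1 : Matrix n n ℂ) ∈ zeros I ℂ := by
  refine ⟨scal_unit hc, fun p hp => ?_⟩
  obtain ⟨q, hq⟩ : ∃ q, q = MvPolynomial.map (algebraMap ℚ ℂ) p := ⟨_, rfl⟩
  have h2 : cev (lin (0 : Matrix n n ℂ) 1) q = 0 := by
    apply Polynomial.eq_zero_of_infinite_isRoot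
    apply Set.infinite_of_injective_forall_mem (f := fun k : ℕ => ((k : ℂ) + 1) ^ w)
    · intro x y hxy
      have h3 : (((x + 1 : ℕ) : ℂ)) ^ w = (((y + 1 : ℕ) : ℂ)) ^ w := by
        push_cast
        exact hxy
      have h4 : (x + 1) ^ w = (y + 1) ^ w := by exact_mod_cast h3
      have h5 := Nat.pow_left_injective (n := w) (by omega) h4
      omega
    · intro k
      change Polynomial.eval _ _ = 0
      rw [cev_eval, lin_eval, zero_add, hq, pevC]
      have h3 := hI (((k : ℝ) + 1 : ℝ) : ℂ) (by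
        rw [Ne, Complex.ofReal_eq_zero]
        positivity)
      rw [hz_real h] at h3
      push_cast at h3
      exact h3.2 p hp
  have h3 := cev_eval (lin (0 : Matrix n n ℂ) 1) c q
  rw [h2, Polynomial.eval_zero, lin_eval, zero_add, hq, pevC] at h3
  exact h3.symm

theorem inj_cayley : Function.Injective
    (fun k : ℕ => (1 + (k : ℂ) * Complex.I) / (starRingEnd ℂ (1 + (k : ℂ) * Complex.I))) := by
  have h1 : ∀ k : ℕ, starRingEnd ℂ (1 + (k : ℂ) * Complex.I) = 1 - k * Complex.I := by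
    intro k
    simp [sub_eq_add_neg]
  have h2 : ∀ k : ℕ, (1 - (k : ℂ) * Complex.I) ≠ 0 := by
    intro k hk
    have := congrArg Complex.re hk
    simp at this
  intro x y hxy
  simp only [h1] at hxy
  rw [div_eq_div_iff (h2 x) (h2 y)] at hxy
  have h3 : (2 * Complex.I) * ((x : ℂ) - y) = 0 := by linear_combination hxy
  have h4 := (mul_eq_zero.1 h3).resolve_left (by simp)
  have h5 := sub_eq_zero.1 h4
  exact_mod_cast h5

/-- the complex torus is in the group -/
theorem T_mem (h : Proj w E π) (hw : 1 ≤ w) (hG : IsAlgSubgroup I)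
    (hI : ∀ z : ℂ, z ≠ 0 → hz w π z ∈ zeros I ℂ) {t : ℂ} (ht : t ≠ 0) :
    Tc w π t ∈ zeros I ℂ := by
  refine ⟨h.Tc_unit ht, fun p hp => ?_⟩
  obtain ⟨q, hq⟩ : ∃ q, q = MvPolynomial.map (algebraMap ℚ ℂ) p := ⟨_, rfl⟩
  have h2 : cev (pc w π) q = 0 := by
    apply Polynomial.eq_zero_of_infinite_isRoot
    apply Set.infinite_of_injective_forall_mem inj_cayley
    intro k
    change Polynomial.eval _ _ = 0
    rw [cev_eval, pc_eval, hq, pevC]
    have hz0 : (1 + (k : ℂ) * Complex.I) ≠ 0 := by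
      intro hk
      have := congrArg Complex.re hk
      simp at this
    have hc : starRingEnd ℂ (1 + (k : ℂ) * Complex.I) ≠ 0 := (map_ne_zero _).2 hz0
    have h3 := hI _ hz0
    have h4 := hG.2.1 _ (scal_mem h hw hI (inv_ne_zero (pow_ne_zero w hc))) _ h3
    rw [hz_eq hz0, smul_mul_smul_comm, inv_mul_cancel₀ (pow_ne_zero w hc), one_smul, one_mul] at h4
    exact h4.2 p hp
  have h3 := cev_eval (pc w π) t q
  rw [h2, Polynomial.eval_zero, pc_eval, hq, pevC] at h3
  exact h3.symm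

/-- the infinitesimal generator -/
noncomputable def Phi (w : ℕ) (π : ℕ → Matrix n n ℂ) : Matrix n n ℂ :=
  ∑ p ∈ Finset.range (w + 1), (p : ℂ) • π p

theorem phi_mem (h : Proj w E π) (hw : 1 ≤ w) (hG : IsAlgSubgroup I)
    (hI : ∀ z : ℂ, z ≠ 0 → hz w π z ∈ zeros I ℂ) : Phi w π ∈ lieOf (zeros I ℂ) := by
  rw [mem_lieOf]
  intro p hp g hg
  have h1 : ∀ i j, (Polynomial.X : Polynomial ℂ) *
      Polynomial.derivative (pc w (fun p => g * π p) i j) =
      ∑ k, Phi w π k j • pc w (fun p => g * π p) i k := by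
    intro i j
    rw [pc_deriv, pc_sum]
    unfold pc
    apply Finset.sum_congr rfl
    intro q hq
    have hq' := Nat.lt_succ_iff.1 (Finset.mem_range.1 hq)
    have h2 : g * π q * Phi w π = (q : ℂ) • (g * π q) := by
      unfold Phi
      rw [mul_assoc, h.sum_mul _ hq', mul_smul_comm]
    change Polynomial.C (((q : ℂ) • (g * π q)) i j) * _ =
      Polynomial.C ((g * π q * Phi w π) i j) * _
    rw [h2]
  have h2 : cev (pc w (fun p => g * π p)) p = 0 := by
    apply poly_zero_of_eval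
    intro t ht
    rw [cev_eval, pc_eval]
    have e : Tc w (fun p => g * π p) t = g * Tc w π t := by
      unfold Tc
      rw [Finset.mul_sum]
      apply Finset.sum_congr rfl
      intro q _
      rw [mul_smul_comm]
    rw [e]
    exact hp _ (hG.2.1 _ hg _ (T_mem h hw hG hI ht))
  have h3 := cev_deriv h1 p
  rw [h2, Polynomial.derivative_zero, mul_zero] at h3
  have h4 := cev_eval (pc w (fun p => g * π p)) 1 (dr (Phi w π) p)
  have e : Tc w (fun p => g * π p) 1 = g := by
    unfold Tc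
    simp_rw [one_pow, one_smul]
    rw [← Finset.mul_sum, h.sum, mul_one]
  rw [← h3, pc_eval, e, Polynomial.eval_zero] at h4
  exact h4.symm

theorem one_mem_lie (h : Proj w E π) (hw : 1 ≤ w) (hG : IsAlgSubgroup I)
    (hI : ∀ z : ℂ, z ≠ 0 → hz w π z ∈ zeros I ℂ) :
    (1 : Matrix n n ℂ) ∈ lieOf (zeros I ℂ) := by
  rw [mem_lieOf]
  intro p hp g hg
  have h1 : ∀ i j, (Polynomial.X : Polynomial ℂ) *
      Polynomial.derivative (lin (0 : Matrix n n ℂ) g i j) =
      ∑ k, (1 : Matrix n n ℂ) k j • lin (0 : Matrix n n ℂ) g i k := by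
    intro i j
    rw [lin_deriv, lin_sum, mul_one, mul_one]
    simp [lin]
  have h2 : cev (lin (0 : Matrix n n ℂ) g) p = 0 := by
    apply poly_zero_of_eval
    intro t ht
    rw [cev_eval, lin_eval, zero_add]
    have h3 := hG.2.1 _ (scal_mem h hw hI ht) _ hg
    rw [smul_mul_assoc, one_mul] at h3
    exact hp _ h3
  have h3 := cev_deriv h1 p
  rw [h2, Polynomial.derivative_zero, mul_zero] at h3
  have h4 := cev_eval (lin (0 : Matrix n n ℂ) g) 1 (dr 1 p)
  rw [← h3, lin_eval, zero_add, one_smul, Polynomial.eval_zero] at h4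
  exact h4.symm

end group

end Pool.Agent.Helper46_MT
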