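import Pool.Agent.Helper46_MT.Hod

/-! MT100, module HOD: the group of symplectic similitudes, over the complex numbers and over all
fields of characteristic zero. -/

set_option autoImplicit false
set_option linter.unusedSectionVars false

namespace Pool.Agent.Helper46_MT

open MvPolynomial Matrix Module Pool.Agent.Helper78_MT Pool.Agent.Helper3_MT

variable {n : Type*} [Fintype n] [DecidableEq n]

section grp
variable {w : ℕ} {E : Matrix n n ℚ} {π : ℕ → Matrix n n ℂ} {I : Set (MvPolynomial (n × n) ℚ)}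
  {ω : n → ℂ}

theorem skew_self {F : Matrix n n ℂ} (hF : Fᵀ = -F) (v : n → ℂ) : v ⬝ᵥ (F *ᵥ v) = 0 := by
  have h1 : v ⬝ᵥ (F *ᵥ v) = v ⬝ᵥ (Fᵀ *ᵥ v) := by
    rw [dotProduct_mulVec v Fᵀ, vecMul_transpose, dotProduct_comm]
  rw [hF, neg_mulVec, dotProduct_neg] at h1
  have h2 : (2 : ℂ) * (v ⬝ᵥ (F *ᵥ v)) = 0 := by linear_combination h1
  exact (mul_eq_zero.1 h2).resolve_left two_ne_zero

theorem Xom_sq {F : Matrix n n ℂ} (hF : Fᵀ = -F) (v : n → ℂ) : Xom F v * Xom F v = 0 := by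
  apply Matrix.ext_of_mulVec_single
  intro j
  rw [← mulVec_mulVec, Xom_mulVec, Xom_mulVec, mulVec_smul, dotProduct_smul, skew_self hF,
    smul_zero, zero_smul, zero_mulVec]

theorem skew_map (hEs : Eᵀ = -E) : (E.map (algebraMap ℚ ℂ))ᵀ = -E.map (algebraMap ℚ ℂ) := by
  have e : (E.map (algebraMap ℚ ℂ))ᵀ = Eᵀ.map (algebraMap ℚ ℂ) := rfl
  rw [e, hEs]
  ext i j
  simp

theorem transv_mem (hG : IsAlgSubgroup I) (hEs : Eᵀ = -E) {v : n → ℂ}
    (hv : Xom (E.map (algebraMap ℚ ℂ)) v ∈ Ul I E) (t : ℂ) :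
    1 + t • Xom (E.map (algebraMap ℚ ℂ)) v ∈ zeros I ℂ := by
  have hsq := Xom_sq (skew_map hEs) v
  refine ⟨?_, fun p hp => ?_⟩
  · have h1 : (1 + t • Xom (E.map (algebraMap ℚ ℂ)) v) *
        (1 - t • Xom (E.map (algebraMap ℚ ℂ)) v) = 1 := by
      rw [mul_sub, mul_one, add_mul, one_mul, smul_mul_smul_comm, hsq, smul_zero, add_zero,
        add_sub_cancel_right]
    have h2 := congrArg det h1
    rw [det_mul, det_one] at h2
    exact IsUnit.of_mul_eq_one _ h2
  · rw [← pevC]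
    apply exp_mem hG.1 hsq hv.1 t
    intro g hg
    rw [pevC]
    exact hg.2 p hp

theorem det_map (hE : E.det ≠ 0) : IsUnit (E.map (algebraMap ℚ ℂ)).det := by
  have h1 : ((algebraMap ℚ ℂ).mapMatrix E).det = algebraMap ℚ ℂ E.det :=
    (RingHom.map_det _ _).symm
  rw [RingHom.mapMatrix_apply] at h1
  rw [h1]
  exact (isUnit_iff_ne_zero.2 ((map_ne_zero _).2 hE))

theorem sp_mem (hG : IsAlgSubgroup I) (hE : E.det ≠ 0) (hEs : Eᵀ = -E)
    (hall : ∀ v, Xom (E.map (algebraMap ℚ ℂ)) v ∈ Ul I E) {Y : Matrix n n ℂ}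
    (hY : Yᵀ * E.map (algebraMap ℚ ℂ) * Y = E.map (algebraMap ℚ ℂ)) : Y ∈ zeros I ℂ := by
  obtain ⟨F, hF⟩ : ∃ F, F = E.map (algebraMap ℚ ℂ) := ⟨_, rfl⟩
  have hFd : IsUnit F.det := by rw [hF]; exact det_map hE
  have hskew : Fᵀ = -F := by rw [hF]; exact skew_map hEs
  rw [← hF] at hY
  have nψ : ∀ u, (∀ v, bil F u v = 0) → u = 0 := by
    intro u hu
    have h1 : u ᵥ* F = 0 := by
      ext j
      have := hu (Pi.single j 1)
      rw [bil_apply, dotProduct_mulVec] at this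
      simpa using this
    have h2 : u ᵥ* (F * F⁻¹) = 0 := by rw [← vecMul_vecMul, h1, zero_vecMul]
    rwa [mul_nonsing_inv F hFd, vecMul_one] at h2
  have skew : ∀ u v, bil F u v = -bil F v u := by
    intro u v
    rw [bil_apply, bil_apply]
    have h1 : v ⬝ᵥ (F *ᵥ u) = u ⬝ᵥ (Fᵀ *ᵥ v) := by
      rw [dotProduct_mulVec u Fᵀ, vecMul_transpose, dotProduct_comm]
    rw [h1, hskew, neg_mulVec, dotProduct_neg, neg_neg]
  let S : Set (Module.End ℂ (n → ℂ)) := {T | φm.symm T ∈ zeros I ℂ}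
  have hr1 : ∀ v : n → ℂ, φm.symm (r1 (bil F) v v) = Xom F v := by
    intro v
    rw [AlgEquiv.symm_apply_eq]
    apply LinearMap.ext
    intro u
    rw [r1_apply, φm_apply, Xom_mulVec, bil_apply]
  have hSt : ∀ (v : n → ℂ) (a : ℂ), 1 + a • r1 (bil F) v v ∈ S := by
    intro v a
    change φm.symm (1 + a • r1 (bil F) v v) ∈ zeros I ℂ
    rw [map_add, map_one, map_smul, hr1, hF]
    exact transv_mem hG hEs (hall v) a
  have hSm : ∀ a ∈ S, ∀ b ∈ S, a * b ∈ S := by
    intro a ha b hb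
    change φm.symm (a * b) ∈ zeros I ℂ
    rw [map_mul]
    exact hG.2.1 _ ha _ hb
  have hS1 : (1 : Module.End ℂ (n → ℂ)) ∈ S := by
    change φm.symm 1 ∈ zeros I ℂ
    rw [map_one]; exact hG.1
  have h1 : φm Y ∈ S := by
    apply sp_gen nψ skew hSm hS1 hSt
    intro u v
    rw [φm_apply, φm_apply, bil_mul, hY]
  change φm.symm (φm Y) ∈ zeros I ℂ at h1
  rwa [AlgEquiv.symm_apply_apply] at h1

theorem sim_mem (hG : IsAlgSubgroup I) (hE : E.det ≠ 0) (hEs : Eᵀ = -E)
    (hsc : ∀ c : ℂ, c ≠ 0 → c • (1 : Matrix n n ℂ) ∈ zeros I ℂ)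
    (hall : ∀ v, Xom (E.map (algebraMap ℚ ℂ)) v ∈ Ul I E) :
    similitudes E ℂ ⊆ zeros I ℂ := by
  rintro X ⟨hX, c, hc⟩
  by_cases hn : Nonempty n
  · have hc0 : c ≠ 0 := by
      rintro rfl
      rw [zero_smul] at hc
      have h1 : IsUnit (Xᵀ * E.map (algebraMap ℚ ℂ) * X).det := by
        rw [det_mul, det_mul, det_transpose]
        exact (hX.mul (det_map hE)).mul hX
      rw [hc, det_zero] at h1
      exact not_isUnit_zero h1
    obtain ⟨μ, hμ⟩ := IsAlgClosed.exists_pow_nat_eq c (n := 2) (by norm_num)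
    have hμ0 : μ ≠ 0 := by
      rintro rfl
      rw [zero_pow two_ne_zero] at hμ
      exact hc0 hμ.symm
    have h1 : (μ⁻¹ • X) ∈ zeros I ℂ := by
      apply sp_mem hG hE hEs hall
      rw [transpose_smul, smul_mul_assoc, smul_mul_smul_comm, hc, smul_smul, ← hμ]
      have : μ⁻¹ * μ⁻¹ * μ ^ 2 = 1 := by field_simp
      rw [this, one_smul]
    have h2 := hG.2.1 _ (hsc μ hμ0) _ h1
    rw [smul_mul_smul_comm, mul_inv_cancel₀ hμ0, one_smul, one_mul] at h2
    exact h2
  · have : X = 1 := by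
      ext i
      exact absurd ⟨i⟩ hn
    rw [this]
    exact hG.1

/-- transfer to all fields of characteristic zero -/
theorem transfer (hE0 : E ≠ 0) (h : similitudes E ℂ ⊆ zeros I ℂ) (K : Type*) [Field K] [CharZero K] :
    similitudes E K ⊆ zeros I K := by
  intro X hX
  refine ⟨hX.1, fun p hp => ?_⟩
  obtain ⟨dp, hdp⟩ : ∃ dp : MvPolynomial (n × n) ℚ,
      dp = (Matrix.of (fun i j => (MvPolynomial.X (i, j) : MvPolynomial (n × n) ℚ))).det :=
    ⟨_, rfl⟩
  have hdetC : ∀ (M : Matrix n n ℂ), pev M dp = M.det := by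
    intro M
    rw [hdp, AlgHom.map_det]
    congr 1
    ext i j
    simp [pev]
  have hrad : p * dp ∈ (Ideal.span (simEqs E)).radical := by
    rw [← vanishingIdeal_zeroLocus_eq_radical (K := ℂ), mem_vanishingIdeal_iff]
    intro x hx
    obtain ⟨M, hM⟩ : ∃ M : Matrix n n ℂ, M = Matrix.of (fun i j => x (i, j)) := ⟨_, rfl⟩
    have hMx : ∀ q : MvPolynomial (n × n) ℚ, aeval x q = pev M q := by
      intro q
      rw [hM]
      rfl
    rw [hMx, map_mul, hdetC]
    by_cases hd : M.det = 0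
    · rw [hd, mul_zero]
    · have h1 : M ∈ zeros (simEqs E) ℂ := by
        refine ⟨isUnit_iff_ne_zero.2 hd, fun q hq => ?_⟩
        rw [← hMx]
        exact hx q (Ideal.subset_span hq)
      rw [zeros_sim hE0] at h1
      rw [(h h1).2 p hp, zero_mul]
  obtain ⟨N, hN⟩ := hrad
  have hX' := hX
  rw [← zeros_sim hE0] at hX'
  have h1 : ∀ q ∈ Ideal.span (simEqs E), pev X q = 0 := by
    intro q hq
    induction hq using Submodule.span_induction with
    | mem q hq => exact hX'.2 q hq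
    | zero => exact map_zero _
    | add a b _ _ ha hb => rw [map_add, ha, hb, add_zero]
    | smul a b _ hb => rw [smul_eq_mul, map_mul, hb, mul_zero]
  have h2 := h1 _ hN
  rw [map_pow, map_mul] at h2
  have h3 := eq_zero_of_pow_eq_zero h2
  have h4 : pev X dp = X.det := by
    rw [hdp, AlgHom.map_det]
    congr 1
    ext i j
    simp [pev]
  rw [h4] at h3
  exact (mul_eq_zero.1 h3).resolve_right hX.1.ne_zero

/-- **HOD, core**: an algebraic group which contains the image of the Deligne torus contains the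
symplectic similitudes if there is no rational quadric through the period. -/
theorem hod_core (h : Proj w E π) (hw : 1 ≤ w) (hL : Line w π ω) (hE : E.det ≠ 0) (hEs : Eᵀ = -E)
    (hq : NoQuad ω) (hG : IsAlgSubgroup I) (hI : ∀ z : ℂ, z ≠ 0 → hz w π z ∈ zeros I ℂ)
    (K : Type*) [Field K] [CharZero K] : similitudes E K ⊆ zeros I K := by
  have hE0 : E ≠ 0 := by
    rintro rfl
    have hn : Nonempty n := by
      by_contra hn
      apply hL.ne
      ext i
      exact absurd ⟨i⟩ hn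
    rw [det_zero] at hE
    exact hE rfl
  apply transfer hE0
  exact sim_mem hG hE hEs (fun c hc => scal_mem h hw hI hc)
    (Xom_all hE hEs hq (Xom_mem h hw hG hI hL hE hEs hq))

end grp

end Pool.Agent.Helper46_MT
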