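import Pool.Agent.Helper46_MT.LieC

/-! MT100, module HOD: without rational quadrics through the period the group is the group of
symplectic similitudes. -/

set_option autoImplicit false
set_option linter.unusedSectionVars false

namespace Pool.Agent.Helper46_MT

open MvPolynomial Matrix Module Pool.Agent.Helper78_MT Pool.Agent.Helper3_MT

variable {n : Type*} [Fintype n] [DecidableEq n]

/-- `π_w` has rank one with image spanned by `ω` -/
structure Line (w : ℕ) (π : ℕ → Matrix n n ℂ) (ω : n → ℂ) : Prop where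
  ne : ω ≠ 0
  fix : π w *ᵥ ω = ω
  rk : ∀ v, ∃ c : ℂ, π w *ᵥ v = c • ω

/-- there is no nonzero rational quadratic form vanishing at `ω` -/
def NoQuad (ω : n → ℂ) : Prop :=
  ∀ S : Matrix n n ℚ, Sᵀ = S → ω ⬝ᵥ (S.map (algebraMap ℚ ℂ) *ᵥ ω) = 0 → S = 0

/-- `ω ω^T E` -/
def Xom (E : Matrix n n ℂ) (v : n → ℂ) : Matrix n n ℂ := vecMulVec v (v ᵥ* E)

theorem Xom_mulVec (E : Matrix n n ℂ) (v u : n → ℂ) : Xom E v *ᵥ u = (v ⬝ᵥ (E *ᵥ u)) • v := by
  unfold Xom
  rw [vecMulVec_mulVec, ← dotProduct_mulVec]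
  ext i
  simp [mul_comm]

section grp
variable {w : ℕ} {E : Matrix n n ℚ} {π : ℕ → Matrix n n ℂ} {I : Set (MvPolynomial (n × n) ℚ)}
  {ω : n → ℂ}

theorem pair0 (h : Proj w E π) (hL : Line w π ω) (v : n → ℂ) :
    ω ⬝ᵥ (E.map (algebraMap ℚ ℂ) *ᵥ v) = ω ⬝ᵥ (E.map (algebraMap ℚ ℂ) *ᵥ (π 0 *ᵥ v)) := by
  have h1 : ∀ u : n → ℂ, ω ⬝ᵥ (E.map (algebraMap ℚ ℂ) *ᵥ u) =
      ω ⬝ᵥ (((π w)ᵀ * E.map (algebraMap ℚ ℂ)) *ᵥ u) := by
    intro u
    rw [← mulVec_mulVec, dotProduct_mulVec ω (π w)ᵀ, vecMul_transpose, hL.fix]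
  have h2 : ((π w)ᵀ * E.map (algebraMap ℚ ℂ)) =
      ((π w)ᵀ * E.map (algebraMap ℚ ℂ)) * π 0 := by
    have h3 : ((π w)ᵀ * E.map (algebraMap ℚ ℂ)) * (∑ p ∈ Finset.range (w + 1), π p) =
        ((π w)ᵀ * E.map (algebraMap ℚ ℂ)) * π 0 := by
      rw [Finset.mul_sum, Finset.sum_eq_single 0]
      · intro q hq hne
        have hq' := Nat.lt_succ_iff.1 (Finset.mem_range.1 hq)
        exact h.pair w le_rfl q hq' (by omega)
      · intro hq
        exact absurd (Finset.mem_range.2 (by omega)) hq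
    rw [h.sum, mul_one] at h3
    exact h3
  rw [h1 v, h1 (π 0 *ᵥ v), mulVec_mulVec, ← h2]

theorem conj_mulVec (A : Matrix n n ℂ) (v : n → ℂ) :
    (fun i => starRingEnd ℂ ((A *ᵥ v) i)) = A.map (starRingEnd ℂ) *ᵥ (fun i => starRingEnd ℂ (v i)) := by
  ext i
  simp [mulVec, dotProduct]

theorem rk0 (h : Proj w E π) (hL : Line w π ω) (v : n → ℂ) :
    ∃ c : ℂ, π 0 *ᵥ v = c • (fun i => starRingEnd ℂ (ω i)) := by
  obtain ⟨c, hc⟩ := hL.rk (fun i => starRingEnd ℂ (v i))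
  refine ⟨starRingEnd ℂ c, ?_⟩
  have h1 := conj_mulVec (π w) (fun i => starRingEnd ℂ (v i))
  rw [hc, h.conj w le_rfl, Nat.sub_self] at h1
  simp only [Complex.conj_conj] at h1
  rw [← h1]
  ext i
  simp

/-- the component `π_w X π_0` is a multiple of `ω ω^T E` -/
theorem ext_mul (h : Proj w E π) (hL : Line w π ω) (hE : E.det ≠ 0) (X : Matrix n n ℂ) :
    ∃ c : ℂ, π w * X * π 0 = c • Xom (E.map (algebraMap ℚ ℂ)) ω := by
  obtain ⟨ω', hω'⟩ : ∃ ω' : n → ℂ, ω' = (fun i => starRingEnd ℂ (ω i)) := ⟨_, rfl⟩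
  obtain ⟨F, hF⟩ : ∃ F, F = E.map (algebraMap ℚ ℂ) := ⟨_, rfl⟩
  have hFdet : IsUnit F.det := by
    rw [hF]
    have h1 : ((algebraMap ℚ ℂ).mapMatrix E).det = algebraMap ℚ ℂ E.det :=
      (RingHom.map_det _ _).symm
    rw [RingHom.mapMatrix_apply] at h1
    rw [h1]
    exact (isUnit_iff_ne_zero.2 ((map_ne_zero _).2 hE))
  obtain ⟨κ, hκ⟩ : ∃ κ, κ = ω ⬝ᵥ (F *ᵥ ω') := ⟨_, rfl⟩
  have hκv : ∀ v (d : ℂ), π 0 *ᵥ v = d • ω' → ω ⬝ᵥ (F *ᵥ v) = d * κ := by
    intro v d hd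
    rw [hκ, hF, pair0 h hL v, hd, mulVec_smul, dotProduct_smul, smul_eq_mul]
  have hκ0 : κ ≠ 0 := by
    intro h0
    have h1 : ω ᵥ* F = 0 := by
      ext j
      obtain ⟨d, hd⟩ := rk0 h hL (Pi.single j 1)
      rw [← hω'] at hd
      have h2 := hκv _ d hd
      rw [h0, mul_zero, dotProduct_mulVec] at h2
      simpa using h2
    have h2 : ω ᵥ* (F * F⁻¹) = 0 := by rw [← vecMul_vecMul, h1, zero_vecMul]
    rw [mul_nonsing_inv F hFdet, vecMul_one] at h2
    exact hL.ne h2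
  obtain ⟨e, he⟩ := hL.rk (X *ᵥ ω')
  refine ⟨e / κ, ?_⟩
  rw [← hF]
  apply Matrix.ext_of_mulVec_single
  intro j
  obtain ⟨d, hd⟩ := rk0 h hL (Pi.single j 1)
  rw [← hω'] at hd
  have h2 := hκv _ d hd
  rw [← mulVec_mulVec, hd, ← mulVec_mulVec, mulVec_smul, mulVec_smul, he, smul_mulVec, Xom_mulVec,
    h2, smul_smul, smul_smul]
  congr 1
  field_simp

theorem rat_conj (Y : Matrix n n ℚ) : (Y.map (algebraMap ℚ ℂ)).map (starRingEnd ℂ) =
    Y.map (algebraMap ℚ ℂ) := by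
  ext i j
  simp

/-- first case: all rational quadrics of the Lie algebra contain `ω` -/
theorem quad_of_not (h : Proj w E π) (hw : 1 ≤ w) (hG : IsAlgSubgroup I)
    (hI : ∀ z : ℂ, z ≠ 0 → hz w π z ∈ zeros I ℂ) (hL : Line w π ω) (hE : E.det ≠ 0)
    (hX : Xom (E.map (algebraMap ℚ ℂ)) ω ∉ Ul I E) {Y : Matrix n n ℚ}
    (hY : Y.map (algebraMap ℚ ℂ) ∈ Ul I E) :
    ω ⬝ᵥ ((E * Y).map (algebraMap ℚ ℂ) *ᵥ ω) = 0 := by
  obtain ⟨c, hc⟩ := ext_mul h hL hE (Y.map (algebraMap ℚ ℂ))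
  have h1 := Ul_ext h hw hG hI hY
  have hc0 : c = 0 := by
    by_contra hne
    rw [hc] at h1
    have h2 := (Ul I E).smul_mem c⁻¹ h1
    rw [smul_smul, inv_mul_cancel₀ hne, one_smul] at h2
    exact hX h2
  rw [hc0, zero_smul] at hc
  have h2 : (π w * Y.map (algebraMap ℚ ℂ) * π 0).map (starRingEnd ℂ) = 0 := by
    rw [hc]
    exact Matrix.map_zero _ (map_zero _)
  rw [Matrix.map_mul, Matrix.map_mul, rat_conj, h.conj w le_rfl, h.conj 0 (Nat.zero_le _),
    Nat.sub_self, Nat.sub_zero] at h2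
  rw [Matrix.map_mul, ← mulVec_mulVec, pair0 h hL]
  have h3 : π 0 *ᵥ (Y.map (algebraMap ℚ ℂ) *ᵥ ω) = 0 := by
    conv_lhs => rw [← hL.fix]
    rw [mulVec_mulVec, mulVec_mulVec, h2, zero_mulVec]
  rw [h3, mulVec_zero, dotProduct_zero]

theorem Xom_mem (h : Proj w E π) (hw : 1 ≤ w) (hG : IsAlgSubgroup I)
    (hI : ∀ z : ℂ, z ≠ 0 → hz w π z ∈ zeros I ℂ) (hL : Line w π ω) (hE : E.det ≠ 0)
    (hEs : Eᵀ = -E) (hq : NoQuad ω) : Xom (E.map (algebraMap ℚ ℂ)) ω ∈ Ul I E := by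
  by_contra hX
  have h0 : ∀ Z ∈ {Z : Matrix n n ℂ | ∃ Y : Matrix n n ℚ,
      Z = Y.map (algebraMap ℚ ℂ) ∧ Z ∈ Ul I E}, Z = 0 := by
    rintro _ ⟨Y, rfl, hY⟩
    have h1 := quad_of_not h hw hG hI hL hE hX hY
    have hsp : Yᵀ * E + E * Y = 0 := by
      have h2 := hY.2
      have h3 : (Yᵀ * E + E * Y).map (algebraMap ℚ ℂ) = (0 : Matrix n n ℚ).map (algebraMap ℚ ℂ) := by
        rw [Matrix.map_add _ (map_add _), Matrix.map_mul, Matrix.map_mul,
          Matrix.map_zero _ (map_zero _)]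
        exact h2
      exact Matrix.map_injective (algebraMap ℚ ℂ).injective h3
    have hsym : (E * Y)ᵀ = E * Y := by
      rw [transpose_mul, hEs, mul_neg, neg_eq_iff_add_eq_zero]
      exact hsp
    have h2 := hq (E * Y) hsym h1
    have hu : IsUnit E.det := isUnit_iff_ne_zero.2 hE
    have h3 : Y = 0 := by
      calc Y = E⁻¹ * (E * Y) := by rw [← mul_assoc, nonsing_inv_mul E hu, one_mul]
        _ = 0 := by rw [h2, mul_zero]
    rw [h3]
    exact Matrix.map_zero _ (map_zero _)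
  have h1 := Ul_descent I E (Phi'_mem h hw hG hI)
  have h2 : Submodule.span ℂ {Z : Matrix n n ℂ | ∃ Y : Matrix n n ℚ,
      Z = Y.map (algebraMap ℚ ℂ) ∧ Z ∈ Ul I E} = ⊥ := by
    rw [Submodule.span_eq_bot]
    exact h0
  rw [h2, Submodule.mem_bot] at h1
  have h3 : Phi' w π *ᵥ ω = ((w : ℂ) / 2) • ω := by
    unfold Phi' Phi
    rw [sub_mulVec, smul_mulVec, one_mulVec]
    have h4 : (∑ p ∈ Finset.range (w + 1), (p : ℂ) • π p) *ᵥ ω = (w : ℂ) • ω := by
      conv_lhs => rw [← hL.fix]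
      rw [mulVec_mulVec, h.mul_sum _ le_rfl, smul_mulVec, hL.fix]
    rw [h4]
    module
  rw [h1, zero_mulVec] at h3
  have h4 := smul_eq_zero.1 h3.symm
  rcases h4 with h4 | h4
  · rw [div_eq_zero_iff] at h4
    rcases h4 with h4 | h4
    · have : w = 0 := by exact_mod_cast h4
      omega
    · exact two_ne_zero h4
  · exact hL.ne h4

/-- second case: the Lie algebra contains the rational symplectic Lie algebra -/
theorem rat_mem (hE : E.det ≠ 0) (hEs : Eᵀ = -E) (hq : NoQuad ω)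
    (hX : Xom (E.map (algebraMap ℚ ℂ)) ω ∈ Ul I E) {Y : Matrix n n ℚ}
    (hY : Yᵀ * E + E * Y = 0) : Y.map (algebraMap ℚ ℂ) ∈ Ul I E := by
  classical
  by_contra hnot
  let UQ : Submodule ℚ (Matrix n n ℚ) :=
    { carrier := {Y | Y.map (algebraMap ℚ ℂ) ∈ Ul I E}
      zero_mem' := by
        change (0 : Matrix n n ℚ).map (algebraMap ℚ ℂ) ∈ Ul I E
        rw [Matrix.map_zero _ (map_zero _)]
        exact Submodule.zero_mem _
      add_mem' := by
        intro A B hA hB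
        change (A + B).map (algebraMap ℚ ℂ) ∈ Ul I E
        rw [Matrix.map_add _ (map_add _)]
        exact Submodule.add_mem _ hA hB
      smul_mem' := by
        intro c A hA
        change (c • A).map (algebraMap ℚ ℂ) ∈ Ul I E
        have : (c • A).map (algebraMap ℚ ℂ) = (algebraMap ℚ ℂ c) • A.map (algebraMap ℚ ℂ) := by
          ext i j
          simp
        rw [this]
        exact Submodule.smul_mem _ _ hA }
  have hnot' : Y ∉ UQ := hnot
  obtain ⟨f, hf, hle⟩ := Submodule.exists_le_ker_of_notMem hnot'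
  obtain ⟨A, hA⟩ : ∃ A : Matrix n n ℚ, ∀ i j, A i j = f (Matrix.single i j 1) :=
    ⟨fun i j => f (Matrix.single i j 1), fun _ _ => rfl⟩
  have hfA : ∀ Z : Matrix n n ℚ, f Z = ∑ i, ∑ j, A i j * Z i j := by
    intro Z
    conv_lhs => rw [matrix_eq_sum_single Z]
    rw [map_sum]
    apply Finset.sum_congr rfl
    intro i _
    rw [map_sum]
    apply Finset.sum_congr rfl
    intro j _
    have : Matrix.single i j (Z i j) = Z i j • Matrix.single i j (1 : ℚ) := by
      rw [Matrix.smul_single, smul_eq_mul, mul_one]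
    rw [this, map_smul, smul_eq_mul, hA, mul_comm]
  have hspan : ∀ Z ∈ Ul I E, ∑ i, ∑ j, algebraMap ℚ ℂ (A i j) * Z i j = 0 := by
    intro Z hZ
    have h1 := Ul_descent I E hZ
    clear hZ
    induction h1 using Submodule.span_induction with
    | mem Z hZ =>
      obtain ⟨Y', rfl, hY'⟩ := hZ
      have h2 : f Y' = 0 := hle hY'
      rw [hfA] at h2
      have h3 := congrArg (algebraMap ℚ ℂ) h2
      simpa [map_sum, map_mul] using h3
    | zero => simp
    | add Z Z' _ _ h1 h2 =>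
      simp only [Matrix.add_apply, mul_add, Finset.sum_add_distrib, h1, h2, add_zero]
    | smul c Z _ h1 =>
      have : ∑ i, ∑ j, algebraMap ℚ ℂ (A i j) * (c • Z) i j =
          c * ∑ i, ∑ j, algebraMap ℚ ℂ (A i j) * Z i j := by
        simp only [Finset.mul_sum, Matrix.smul_apply, smul_eq_mul]
        apply Finset.sum_congr rfl
        intro i _
        apply Finset.sum_congr rfl
        intro j _
        ring
      rw [this, h1, mul_zero]
  have h1 := hspan _ hX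
  -- the quadric `A E^T`
  have h2 : ω ⬝ᵥ ((A * Eᵀ).map (algebraMap ℚ ℂ) *ᵥ ω) = 0 := by
    rw [← h1]
    simp only [Xom, vecMulVec_apply, dotProduct, mulVec, Matrix.map_apply, Matrix.mul_apply,
      transpose_apply, vecMul, map_sum, map_mul, Finset.mul_sum, Finset.sum_mul]
    apply Finset.sum_congr rfl
    intro i _
    rw [Finset.sum_comm]
    apply Finset.sum_congr rfl
    intro j _
    apply Finset.sum_congr rfl
    intro k _
    ring
  have h3 : ω ⬝ᵥ ((A * Eᵀ)ᵀ.map (algebraMap ℚ ℂ) *ᵥ ω) = 0 := by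
    have e : (A * Eᵀ)ᵀ.map (algebraMap ℚ ℂ) = ((A * Eᵀ).map (algebraMap ℚ ℂ))ᵀ := rfl
    rw [← h2, dotProduct_mulVec ω ((A * Eᵀ)ᵀ.map (algebraMap ℚ ℂ)), e, vecMul_transpose, dotProduct_comm]
  have h4 := hq (A * Eᵀ + (A * Eᵀ)ᵀ) (by rw [transpose_add, transpose_transpose, add_comm]) (by
    rw [Matrix.map_add _ (map_add _), add_mulVec, dotProduct_add, h2, h3, add_zero])
  have hu : IsUnit E.det := isUnit_iff_ne_zero.2 hE
  have h5 : E * Aᵀ = A * E := by
    rw [transpose_mul, transpose_transpose, hEs, mul_neg] at h4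
    have := eq_neg_of_add_eq_zero_right h4
    rw [this, neg_neg]
  have h6 : (Aᵀ * Y).trace = -(Aᵀ * Y).trace := by
    have e1 : Aᵀ = E⁻¹ * (A * E) := by rw [← h5, ← mul_assoc, nonsing_inv_mul E hu, one_mul]
    have e2 : E * Y = -(Yᵀ * E) := eq_neg_of_add_eq_zero_right hY
    calc (Aᵀ * Y).trace = (E⁻¹ * (A * E) * Y).trace := by rw [← e1]
      _ = (E⁻¹ * (A * (E * Y))).trace := by simp only [mul_assoc]
      _ = -(E⁻¹ * (A * (Yᵀ * E))).trace := by rw [e2, mul_neg, mul_neg, trace_neg]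
      _ = -((A * Yᵀ) * (E * E⁻¹)).trace := by
        rw [trace_mul_comm]
        simp only [mul_assoc]
      _ = -(A * Yᵀ).trace := by rw [mul_nonsing_inv E hu, mul_one]
      _ = -((A * Yᵀ)ᵀ).trace := by rw [trace_transpose]
      _ = -(Aᵀ * Y).trace := by rw [transpose_mul, transpose_transpose, trace_mul_comm]
  have h7 : (Aᵀ * Y).trace = 0 := by linarith
  apply hf
  rw [hfA, ← h7, Matrix.trace]
  simp only [Matrix.diag_apply, Matrix.mul_apply, transpose_apply]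
  rw [Finset.sum_comm]

/-- all transvections are in the group -/
theorem Xom_all (hE : E.det ≠ 0) (hEs : Eᵀ = -E) (hq : NoQuad ω)
    (hX : Xom (E.map (algebraMap ℚ ℂ)) ω ∈ Ul I E) (v : n → ℂ) :
    Xom (E.map (algebraMap ℚ ℂ)) v ∈ Ul I E := by
  classical
  have h1 : ∀ i j : n, ((Matrix.single i j (1 : ℚ) + Matrix.single j i 1) * E).map (algebraMap ℚ ℂ) ∈
      Ul I E := by
    intro i j
    apply rat_mem hE hEs hq hX
    rw [transpose_mul, transpose_add, transpose_single, transpose_single, hEs, add_comm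
      (Matrix.single j i (1 : ℚ)), ← mul_assoc]
    rw [neg_mul, neg_mul, neg_add_cancel]
  have h2 : Xom (E.map (algebraMap ℚ ℂ)) v = (1 / 2 : ℂ) • ∑ i, ∑ j, (v i * v j) •
      ((Matrix.single i j (1 : ℚ) + Matrix.single j i 1) * E).map (algebraMap ℚ ℂ) := by
    have e1 : ∀ i j : n, ((Matrix.single i j (1 : ℚ) + Matrix.single j i 1) * E).map (algebraMap ℚ ℂ) =
        (Matrix.single i j (1 : ℂ) + Matrix.single j i 1) * E.map (algebraMap ℚ ℂ) := by
      intro i j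
      rw [Matrix.map_mul, Matrix.map_add _ (map_add _)]
      congr 2
      · ext a b
        simp [Matrix.single_apply, apply_ite]
      · ext a b
        simp [Matrix.single_apply, apply_ite]
    have e2 : ∑ i, ∑ j, (v i * v j) • (Matrix.single i j (1 : ℂ)) = vecMulVec v v := by
      ext a b
      simp [Matrix.sum_apply, Matrix.single_apply, vecMulVec_apply, ite_and]
    have e3 : ∑ i, ∑ j, (v i * v j) • (Matrix.single j i (1 : ℂ)) = vecMulVec v v := by
      rw [Finset.sum_comm, ← e2]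
      apply Finset.sum_congr rfl
      intro i _
      apply Finset.sum_congr rfl
      intro j _
      rw [mul_comm]
    simp_rw [e1, ← smul_mul_assoc, ← Finset.sum_mul, smul_add, Finset.sum_add_distrib]
    rw [e2, e3]
    have e4 : Xom (E.map (algebraMap ℚ ℂ)) v = vecMulVec v v * E.map (algebraMap ℚ ℂ) := by
      unfold Xom
      rw [vecMulVec_mul]
    rw [e4, ← two_smul ℂ (vecMulVec v v), smul_mul_assoc, smul_smul]
    norm_num
  rw [h2]
  apply Submodule.smul_mem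
  apply Submodule.sum_mem
  intro i _
  apply Submodule.sum_mem
  intro j _
  exact Submodule.smul_mem _ _ (h1 i j)

end grp

end Pool.Agent.Helper46_MT
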